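import Mathlib

namespace Pool.Agent.Lib.MP_df1cff_co

def NL (a b c e f : ℕ) : Prop :=
  (f = 0 ∧ b % 2 = 0 ∧ (e + 1 ≤ c ∨ (c = e ∧ a % 2 = 1) ∨ (c + 1 = e ∧ a % 2 = 0))) ∨
  (f = 0 ∧ b % 2 = 1 ∧ e ≤ c) ∨
  (f = 1 ∧ b % 2 = 0 ∧ e ≤ c + 1) ∨
  ((2 ≤ f ∨ (f = 1 ∧ b % 2 = 1)) ∧ (e + 1 ≤ c + f ∨ (e = c + f ∧ a % 2 = 1)))

def NR (a b c e f : ℕ) : Prop :=
  (f = 0 ∧ b % 2 = 0 ∧ (c + 1 ≤ e ∨ (c = e ∧ a % 2 = 1) ∨ (c = e + 1 ∧ a % 2 = 0))) ∨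
  (f = 0 ∧ b % 2 = 1 ∧ c ≤ e) ∨
  (1 ≤ f ∧ (c + f ≤ e ∨ (c + f = e + 1 ∧ a % 2 = 0)))

def ML (a b c e f : ℕ) : Prop :=
  (b = 0 ∧ f ≤ 1 ∧ NL (a + 1) b c e f) ∨ ((1 ≤ b ∨ 2 ≤ f) ∧ NL a b c e f)

def MR (a b c e f : ℕ) : Prop :=
  (b = 0 ∧ f ≤ 1 ∧ NR (a + 1) b c e f) ∨ ((1 ≤ b ∨ 2 ≤ f) ∧ NR a b c e f)

def LStep (P : ℕ → ℕ → ℕ → ℕ → ℕ → Prop) (a b c e f : ℕ) : Prop :=
  (1 ≤ a ∧ ¬ P (a - 1) b c e f) ∨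
  (1 ≤ b ∧ (¬ P a (b - 1) c e f ∨ ¬ P (a + 1) (b - 1) c e f)) ∨
  (1 ≤ c ∧ (¬ P a b (c - 1) e f ∨ ¬ P (a + 1) b (c - 1) e f)) ∨
  (1 ≤ e ∧ ¬ P a b c (e - 1) f) ∨
  (1 ≤ f ∧ (¬ P a b c e (f - 1) ∨ ¬ P a b (c + 1) e (f - 1) ∨ ¬ P a b c (e + 1) (f - 1)))

def RStep (P : ℕ → ℕ → ℕ → ℕ → ℕ → Prop) (a b c e f : ℕ) : Prop :=
  (1 ≤ a ∧ ¬ P (a - 1) b c e f) ∨
  (1 ≤ b ∧ (¬ P a (b - 1) c e f ∨ ¬ P (a + 1) (b - 1) c e f)) ∨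
  (1 ≤ c ∧ ¬ P a b (c - 1) e f) ∨
  (1 ≤ e ∧ (¬ P a b c (e - 1) f ∨ ¬ P (a + 1) b c (e - 1) f)) ∨
  (1 ≤ f ∧ (¬ P a b c e (f - 1) ∨ ¬ P a (b + 1) c e (f - 1)))

theorem split5 (P : ℕ → ℕ → ℕ → Prop)
    (h : ∀ a b f : ℕ, (a = 0 ∨ (∃ k, a = 2 * k + 1) ∨ ∃ k, a = 2 * k + 2) →
      (b = 0 ∨ b = 1 ∨ (∃ k, b = 2 * k + 2) ∨ (∃ k, b = 2 * k + 3)) →
      (f = 0 ∨ f = 1 ∨ f = 2 ∨ ∃ k, f = k + 3) → P a b f) (a b f : ℕ) : P a b f := by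
  refine h a b f ?_ ?_ ?_
  · rcases Nat.eq_zero_or_pos a with h | h
    · exact Or.inl h
    · rcases Nat.mod_two_eq_zero_or_one a with h2 | h2
      · exact Or.inr (Or.inr ⟨a / 2 - 1, by omega⟩)
      · exact Or.inr (Or.inl ⟨a / 2, by omega⟩)
  · rcases Nat.lt_or_ge b 2 with h | h
    · omega
    · rcases Nat.mod_two_eq_zero_or_one b with h2 | h2
      · exact Or.inr (Or.inr (Or.inl ⟨b / 2 - 1, by omega⟩))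
      · exact Or.inr (Or.inr (Or.inr ⟨b / 2 - 1, by omega⟩))
  · rcases Nat.lt_or_ge f 3 with h | h
    · omega
    · exact Or.inr (Or.inr (Or.inr ⟨f - 3, by omega⟩))

theorem NL_iff (a b c e f : ℕ) : NL a b c e f ↔ LStep NR a b c e f := by
  revert a b f
  refine split5 _ ?_
  intro a b f ha hb hf
  rcases ha with rfl | ⟨i, rfl⟩ | ⟨i, rfl⟩ <;> rcases hb with rfl | rfl | ⟨j, rfl⟩ | ⟨j, rfl⟩ <;>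
    rcases hf with rfl | rfl | rfl | ⟨k, rfl⟩ <;>
    simp [LStep, NL, NR, Nat.add_mod] <;> omega

theorem NR_iff (a b c e f : ℕ) : NR a b c e f ↔ RStep NL a b c e f := by
  revert a b f
  refine split5 _ ?_
  intro a b f ha hb hf
  rcases ha with rfl | ⟨i, rfl⟩ | ⟨i, rfl⟩ <;> rcases hb with rfl | rfl | ⟨j, rfl⟩ | ⟨j, rfl⟩ <;>
    rcases hf with rfl | rfl | rfl | ⟨k, rfl⟩ <;>
    simp [RStep, NL, NR, Nat.add_mod] <;> omega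

theorem ML_iff (a b c e f : ℕ) :
    ML a b c e f ↔ (a + b + c + e + f = 0 ∨ LStep MR a b c e f) := by
  revert a b f
  refine split5 _ ?_
  intro a b f ha hb hf
  rcases ha with rfl | ⟨i, rfl⟩ | ⟨i, rfl⟩ <;> rcases hb with rfl | rfl | ⟨j, rfl⟩ | ⟨j, rfl⟩ <;>
    rcases hf with rfl | rfl | rfl | ⟨k, rfl⟩ <;>
    simp [LStep, ML, MR, NL, NR, Nat.add_mod] <;> omega

theorem MR_iff (a b c e f : ℕ) :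
    MR a b c e f ↔ (a + b + c + e + f = 0 ∨ RStep ML a b c e f) := by
  revert a b f
  refine split5 _ ?_
  intro a b f ha hb hf
  rcases ha with rfl | ⟨i, rfl⟩ | ⟨i, rfl⟩ <;> rcases hb with rfl | rfl | ⟨j, rfl⟩ | ⟨j, rfl⟩ <;>
    rcases hf with rfl | rfl | rfl | ⟨k, rfl⟩ <;>
    simp [RStep, ML, MR, NL, NR, Nat.add_mod] <;> omega

end Pool.Agent.Lib.MP_df1cff_co
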