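import Mathlib

/-!
Short partizan games as hereditarily finite pairs of sets of options, with the disjunctive sum,
normal and misere outcomes, dicotic games, closed sets, evil kernels.
-/

namespace Pool.Agent.Lib.MP_df1cff_co

/-- Short partizan game forms. A game is the same thing as a pair (finite set of Left options,
finite set of Right options), see `Game.options`; the carrier is an Ackermann coding, so two games
with the same sets of options are equal and every option has a smaller code. -/
def Game : Type := ℕ

namespace Game

instance : DecidableEq Game := inferInstanceAs (DecidableEq ℕ)

/-- The bijection sending a game to its pair (Left options, Right options). -/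
def options : Game ≃ Finset Game × Finset Game :=
  (Nat.pairEquiv.symm.trans (Equiv.prodCongr Finset.equivBitIndices Finset.equivBitIndices) :
    ℕ ≃ Finset ℕ × Finset ℕ)

/-- The set of Left options. -/
def left (G : Game) : Finset Game := (options G).1

/-- The set of Right options. -/
def right (G : Game) : Finset Game := (options G).2

/-- The game `{L | R}`. -/
def mk (L R : Finset Game) : Game := options.symm (L, R)

/-- The code of a game; used only to justify recursion on options. -/
def code (G : Game) : ℕ := G

theorem code_lt_left {G H : Game} (h : H ∈ G.left) : H.code < G.code := by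
  have h1 : H.code ∈ (Nat.unpair G.code).1.bitIndices := List.mem_toFinset.mp h
  exact lt_of_lt_of_le Nat.lt_two_pow_self
    ((Nat.two_pow_le_of_mem_bitIndices h1).trans (Nat.unpair_left_le _))

theorem code_lt_right {G H : Game} (h : H ∈ G.right) : H.code < G.code := by
  have h1 : H.code ∈ (Nat.unpair G.code).2.bitIndices := List.mem_toFinset.mp h
  exact lt_of_lt_of_le Nat.lt_two_pow_self
    ((Nat.two_pow_le_of_mem_bitIndices h1).trans (Nat.unpair_right_le _))

/-- The disjunctive sum `G + H = {G^L + H, G + H^L | G^R + H, G + H^R}`. -/
def sum (G H : Game) : Game :=
  mk ((G.left.attach.image fun x => sum x.1 H) ∪ (H.left.attach.image fun y => sum G y.1))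
    ((G.right.attach.image fun x => sum x.1 H) ∪ (H.right.attach.image fun y => sum G y.1))
termination_by G.code + H.code
decreasing_by
  · exact Nat.add_lt_add_right (code_lt_left x.2) _
  · exact Nat.add_lt_add_left (code_lt_left y.2) _
  · exact Nat.add_lt_add_right (code_lt_right x.2) _
  · exact Nat.add_lt_add_left (code_lt_right y.2) _

/-- The game `0 = { | }`. -/
def zero : Game := mk ∅ ∅

/-- The game `* = {0 | 0}`. -/
def star : Game := mk {zero} {zero}

/-- `firstWins misere leftToMove G`: the player to move (Left if `leftToMove`, else Right) wins `G`.
A player unable to move wins exactly when `misere = true`; otherwise the player to move wins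
iff some move leads to a position that the opponent, moving next, does not win. -/
def firstWins (misere : Bool) (leftToMove : Bool) (G : Game) : Prop :=
  match leftToMove with
  | true => (misere = true ∧ G.left = ∅) ∨ ∃ x : {H // H ∈ G.left}, ¬ firstWins misere false x.1
  | false => (misere = true ∧ G.right = ∅) ∨ ∃ x : {H // H ∈ G.right}, ¬ firstWins misere true x.1
termination_by G.code
decreasing_by
  · exact code_lt_left x.2
  · exact code_lt_right x.2

end Game

/-- Outcome classes. -/
inductive Outcome : Type
  | L | R | N | P

open Classical in
/-- The outcome class: `N` if each player wins moving first, `L` if only Left does, `R` if only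
Right does, `P` if neither does. -/
noncomputable def outcome (misere : Bool) (G : Game) : Outcome :=
  if G.firstWins misere true then (if G.firstWins misere false then Outcome.N else Outcome.L)
  else (if G.firstWins misere false then Outcome.R else Outcome.P)

/-- Normal play outcome `o⁺`. -/
noncomputable def normalOutcome (G : Game) : Outcome := outcome false G

/-- Misere play outcome `o⁻`. -/
noncomputable def misereOutcome (G : Game) : Outcome := outcome true G

/-- `H` is reachable from `G` by a finite (possibly empty) sequence of moves of either player. -/
def IsSubposition (H G : Game) : Prop :=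
  Relation.ReflTransGen (fun X Y : Game => Y ∈ X.left ∨ Y ∈ X.right) G H

/-- At every subposition, both players have a move or neither does. -/
def IsDicotic (G : Game) : Prop :=
  ∀ H, IsSubposition H G → (H.left.Nonempty ↔ H.right.Nonempty)

/-- Closed under sums and under subpositions. -/
def IsClosedSet (A : Set Game) : Prop :=
  (∀ G ∈ A, ∀ H ∈ A, G.sum H ∈ A) ∧ (∀ G ∈ A, ∀ H, IsSubposition H G → H ∈ A)

open Classical in
/-- `G^* = G` if `G ∈ K` and `G^* = G + *` otherwise. -/
noncomputable def twin (K : Set Game) (G : Game) : Game :=
  if G ∈ K then G else G.sum Game.star

/-- `K` is an evil kernel of `A`. -/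
def IsEvilKernel (A K : Set Game) : Prop :=
  K ⊆ A ∧ ∀ G ∈ A, normalOutcome G = misereOutcome (twin K G) ∧
    misereOutcome G = normalOutcome (twin K G)

end Pool.Agent.Lib.MP_df1cff_co
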