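import Pool.Agent.Lib.MP_df1cff_co.Defs
import Pool.Agent.Lib.MP_df1cff_co.Arith

namespace Pool.Agent.Lib.MP_df1cff_co

namespace Game

@[simp] theorem left_mk (L R : Finset Game) : (mk L R).left = L := by simp [left, mk]

@[simp] theorem right_mk (L R : Finset Game) : (mk L R).right = R := by simp [right, mk]

theorem ext' {G H : Game} (h1 : G.left = H.left) (h2 : G.right = H.right) : G = H :=
  options.injective (Prod.ext h1 h2)

theorem mem_left_sum {G H X : Game} :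
    X ∈ (G.sum H).left ↔ (∃ g ∈ G.left, X = g.sum H) ∨ (∃ h ∈ H.left, X = G.sum h) := by
  rw [sum]
  simp only [left_mk, Finset.mem_union, Finset.mem_image, Finset.mem_attach, true_and,
    Subtype.exists]
  constructor
  · rintro (⟨a, ha, rfl⟩ | ⟨a, ha, rfl⟩)
    · exact Or.inl ⟨a, ha, rfl⟩
    · exact Or.inr ⟨a, ha, rfl⟩
  · rintro (⟨a, ha, rfl⟩ | ⟨a, ha, rfl⟩)
    · exact Or.inl ⟨a, ha, rfl⟩
    · exact Or.inr ⟨a, ha, rfl⟩

theorem mem_right_sum {G H X : Game} :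
    X ∈ (G.sum H).right ↔ (∃ g ∈ G.right, X = g.sum H) ∨ (∃ h ∈ H.right, X = G.sum h) := by
  rw [sum]
  simp only [right_mk, Finset.mem_union, Finset.mem_image, Finset.mem_attach, true_and,
    Subtype.exists]
  constructor
  · rintro (⟨a, ha, rfl⟩ | ⟨a, ha, rfl⟩)
    · exact Or.inl ⟨a, ha, rfl⟩
    · exact Or.inr ⟨a, ha, rfl⟩
  · rintro (⟨a, ha, rfl⟩ | ⟨a, ha, rfl⟩)
    · exact Or.inl ⟨a, ha, rfl⟩
    · exact Or.inr ⟨a, ha, rfl⟩

@[simp] theorem left_zero : zero.left = ∅ := by simp [zero]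

@[simp] theorem right_zero : zero.right = ∅ := by simp [zero]

theorem sum_comm' (n : ℕ) : ∀ G H : Game, G.code + H.code < n → G.sum H = H.sum G := by
  induction n with
  | zero => intro G H h; omega
  | succ n ih =>
    intro G H h
    apply ext'
    · ext X
      rw [mem_left_sum, mem_left_sum]
      constructor
      · rintro (⟨a, ha, rfl⟩ | ⟨a, ha, rfl⟩)
        · exact Or.inr ⟨a, ha, ih _ _ (by have := code_lt_left ha; omega)⟩
        · exact Or.inl ⟨a, ha, ih _ _ (by have := code_lt_left ha; omega)⟩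
      · rintro (⟨a, ha, rfl⟩ | ⟨a, ha, rfl⟩)
        · exact Or.inr ⟨a, ha, ih _ _ (by have := code_lt_left ha; omega)⟩
        · exact Or.inl ⟨a, ha, ih _ _ (by have := code_lt_left ha; omega)⟩
    · ext X
      rw [mem_right_sum, mem_right_sum]
      constructor
      · rintro (⟨a, ha, rfl⟩ | ⟨a, ha, rfl⟩)
        · exact Or.inr ⟨a, ha, ih _ _ (by have := code_lt_right ha; omega)⟩
        · exact Or.inl ⟨a, ha, ih _ _ (by have := code_lt_right ha; omega)⟩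
      · rintro (⟨a, ha, rfl⟩ | ⟨a, ha, rfl⟩)
        · exact Or.inr ⟨a, ha, ih _ _ (by have := code_lt_right ha; omega)⟩
        · exact Or.inl ⟨a, ha, ih _ _ (by have := code_lt_right ha; omega)⟩

theorem sum_comm (G H : Game) : G.sum H = H.sum G := sum_comm' _ G H (Nat.lt_succ_self _)

theorem sum_zero' (n : ℕ) : ∀ G : Game, G.code < n → G.sum zero = G := by
  induction n with
  | zero => intro G h; omega
  | succ n ih =>
    intro G h
    apply ext'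
    · ext X
      rw [mem_left_sum]
      constructor
      · rintro (⟨a, ha, rfl⟩ | ⟨a, ha, rfl⟩)
        · rw [ih _ (by have := code_lt_left ha; omega)]; exact ha
        · simp at ha
      · intro hX
        exact Or.inl ⟨X, hX, (ih _ (by have := code_lt_left hX; omega)).symm⟩
    · ext X
      rw [mem_right_sum]
      constructor
      · rintro (⟨a, ha, rfl⟩ | ⟨a, ha, rfl⟩)
        · rw [ih _ (by have := code_lt_right ha; omega)]; exact ha
        · simp at ha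
      · intro hX
        exact Or.inl ⟨X, hX, (ih _ (by have := code_lt_right hX; omega)).symm⟩

theorem sum_zero (G : Game) : G.sum zero = G := sum_zero' _ G (Nat.lt_succ_self _)

theorem sum_assoc' (n : ℕ) : ∀ G H J : Game, G.code + H.code + J.code < n →
    (G.sum H).sum J = G.sum (H.sum J) := by
  induction n with
  | zero => intro G H J h; omega
  | succ n ih =>
    intro G H J h
    apply ext'
    · ext X
      simp only [mem_left_sum]
      constructor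
      · rintro (⟨a, (⟨b, hb, rfl⟩ | ⟨b, hb, rfl⟩), rfl⟩ | ⟨a, ha, rfl⟩)
        · exact Or.inl ⟨b, hb, ih _ _ _ (by have := code_lt_left hb; omega)⟩
        · exact Or.inr ⟨_, Or.inl ⟨b, hb, rfl⟩, ih _ _ _ (by have := code_lt_left hb; omega)⟩
        · exact Or.inr ⟨_, Or.inr ⟨a, ha, rfl⟩, ih _ _ _ (by have := code_lt_left ha; omega)⟩
      · rintro (⟨a, ha, rfl⟩ | ⟨a, (⟨b, hb, rfl⟩ | ⟨b, hb, rfl⟩), rfl⟩)
        · exact Or.inl ⟨_, Or.inl ⟨a, ha, rfl⟩,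
            (ih _ _ _ (by have := code_lt_left ha; omega)).symm⟩
        · exact Or.inl ⟨_, Or.inr ⟨b, hb, rfl⟩,
            (ih _ _ _ (by have := code_lt_left hb; omega)).symm⟩
        · exact Or.inr ⟨b, hb, (ih _ _ _ (by have := code_lt_left hb; omega)).symm⟩
    · ext X
      simp only [mem_right_sum]
      constructor
      · rintro (⟨a, (⟨b, hb, rfl⟩ | ⟨b, hb, rfl⟩), rfl⟩ | ⟨a, ha, rfl⟩)
        · exact Or.inl ⟨b, hb, ih _ _ _ (by have := code_lt_right hb; omega)⟩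
        · exact Or.inr ⟨_, Or.inl ⟨b, hb, rfl⟩, ih _ _ _ (by have := code_lt_right hb; omega)⟩
        · exact Or.inr ⟨_, Or.inr ⟨a, ha, rfl⟩, ih _ _ _ (by have := code_lt_right ha; omega)⟩
      · rintro (⟨a, ha, rfl⟩ | ⟨a, (⟨b, hb, rfl⟩ | ⟨b, hb, rfl⟩), rfl⟩)
        · exact Or.inl ⟨_, Or.inl ⟨a, ha, rfl⟩,
            (ih _ _ _ (by have := code_lt_right ha; omega)).symm⟩
        · exact Or.inl ⟨_, Or.inr ⟨b, hb, rfl⟩,
            (ih _ _ _ (by have := code_lt_right hb; omega)).symm⟩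
        · exact Or.inr ⟨b, hb, (ih _ _ _ (by have := code_lt_right hb; omega)).symm⟩

theorem sum_assoc (G H J : Game) : (G.sum H).sum J = G.sum (H.sum J) :=
  sum_assoc' _ G H J (Nat.lt_succ_self _)

instance instAdd : Add Game := ⟨sum⟩
instance instZero : Zero Game := ⟨zero⟩

instance instMonoid : AddCommMonoid Game where
  add_assoc := sum_assoc
  zero_add G := (sum_comm _ _).trans (sum_zero G)
  add_zero := sum_zero
  add_comm := sum_comm
  nsmul := nsmulRec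

theorem add_def (G H : Game) : G + H = G.sum H := rfl
theorem zero_def : (0 : Game) = zero := rfl

theorem mem_left_add {G H X : Game} :
    X ∈ (G + H).left ↔ (∃ g ∈ G.left, X = g + H) ∨ (∃ h ∈ H.left, X = G + h) := mem_left_sum

theorem mem_right_add {G H X : Game} :
    X ∈ (G + H).right ↔ (∃ g ∈ G.right, X = g + H) ∨ (∃ h ∈ H.right, X = G + h) := mem_right_sum

theorem mem_left_nsmul (G : Game) (n : ℕ) : ∀ X : Game,
    X ∈ (n • G).left ↔ 1 ≤ n ∧ ∃ g ∈ G.left, X = g + (n - 1) • G := by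
  induction n with
  | zero => intro X; simp [zero_def]
  | succ n ih =>
    intro X
    rw [succ_nsmul, mem_left_add]
    constructor
    · rintro (⟨g, hg, rfl⟩ | ⟨g, hg, rfl⟩)
      · obtain ⟨hn, g', hg', rfl⟩ := (ih g).1 hg
        refine ⟨by omega, g', hg', ?_⟩
        obtain ⟨m, rfl⟩ : ∃ m, n = m + 1 := ⟨n - 1, by omega⟩
        rw [Nat.add_sub_cancel, Nat.add_sub_cancel, succ_nsmul, add_assoc]
      · exact ⟨by omega, g, hg, by simp [add_comm]⟩
    · rintro ⟨_, g, hg, rfl⟩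
      exact Or.inr ⟨g, hg, by simp [add_comm]⟩

theorem mem_right_nsmul (G : Game) (n : ℕ) : ∀ X : Game,
    X ∈ (n • G).right ↔ 1 ≤ n ∧ ∃ g ∈ G.right, X = g + (n - 1) • G := by
  induction n with
  | zero => intro X; simp [zero_def]
  | succ n ih =>
    intro X
    rw [succ_nsmul, mem_right_add]
    constructor
    · rintro (⟨g, hg, rfl⟩ | ⟨g, hg, rfl⟩)
      · obtain ⟨hn, g', hg', rfl⟩ := (ih g).1 hg
        refine ⟨by omega, g', hg', ?_⟩
        obtain ⟨m, rfl⟩ : ∃ m, n = m + 1 := ⟨n - 1, by omega⟩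
        rw [Nat.add_sub_cancel, Nat.add_sub_cancel, succ_nsmul, add_assoc]
      · exact ⟨by omega, g, hg, by simp [add_comm]⟩
    · rintro ⟨_, g, hg, rfl⟩
      exact Or.inr ⟨g, hg, by simp [add_comm]⟩

theorem firstWins_left (m : Bool) (G : Game) : G.firstWins m true ↔
    (m = true ∧ G.left = ∅) ∨ ∃ H ∈ G.left, ¬ H.firstWins m false := by
  rw [firstWins]
  simp only [Subtype.exists, exists_prop]

theorem firstWins_right (m : Bool) (G : Game) : G.firstWins m false ↔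
    (m = true ∧ G.right = ∅) ∨ ∃ H ∈ G.right, ¬ H.firstWins m true := by
  rw [firstWins]
  simp only [Subtype.exists, exists_prop]

theorem exists_left_nsmul (G : Game) (n : ℕ) (P : Game → Prop) :
    (∃ g ∈ (n • G).left, P g) ↔ 1 ≤ n ∧ ∃ g ∈ G.left, P (g + (n - 1) • G) := by
  constructor
  · rintro ⟨g, hg, hP⟩
    obtain ⟨hn, g', hg', rfl⟩ := (mem_left_nsmul G n g).1 hg
    exact ⟨hn, g', hg', hP⟩
  · rintro ⟨hn, g, hg, hP⟩
    exact ⟨_, (mem_left_nsmul G n _).2 ⟨hn, g, hg, rfl⟩, hP⟩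

theorem exists_right_nsmul (G : Game) (n : ℕ) (P : Game → Prop) :
    (∃ g ∈ (n • G).right, P g) ↔ 1 ≤ n ∧ ∃ g ∈ G.right, P (g + (n - 1) • G) := by
  constructor
  · rintro ⟨g, hg, hP⟩
    obtain ⟨hn, g', hg', rfl⟩ := (mem_right_nsmul G n g).1 hg
    exact ⟨hn, g', hg', hP⟩
  · rintro ⟨hn, g, hg, hP⟩
    exact ⟨_, (mem_right_nsmul G n _).2 ⟨hn, g, hg, rfl⟩, hP⟩

theorem mem_left_add5 (A B C D E X : Game) : X ∈ (A + B + C + D + E).left ↔
    (∃ g ∈ A.left, X = g + B + C + D + E) ∨ (∃ g ∈ B.left, X = A + g + C + D + E) ∨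
    (∃ g ∈ C.left, X = A + B + g + D + E) ∨ (∃ g ∈ D.left, X = A + B + C + g + E) ∨
    (∃ g ∈ E.left, X = A + B + C + D + g) := by
  simp only [mem_left_add]
  constructor
  · rintro (⟨_, (⟨_, (⟨_, (⟨g, h, rfl⟩ | ⟨g, h, rfl⟩), rfl⟩ | ⟨g, h, rfl⟩), rfl⟩ | ⟨g, h, rfl⟩),
      rfl⟩ | ⟨g, h, rfl⟩)
    · exact Or.inl ⟨g, h, rfl⟩
    · exact Or.inr (Or.inl ⟨g, h, rfl⟩)
    · exact Or.inr (Or.inr (Or.inl ⟨g, h, rfl⟩))
    · exact Or.inr (Or.inr (Or.inr (Or.inl ⟨g, h, rfl⟩)))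
    · exact Or.inr (Or.inr (Or.inr (Or.inr ⟨g, h, rfl⟩)))
  · rintro (⟨g, h, rfl⟩ | ⟨g, h, rfl⟩ | ⟨g, h, rfl⟩ | ⟨g, h, rfl⟩ | ⟨g, h, rfl⟩)
    · exact Or.inl ⟨_, Or.inl ⟨_, Or.inl ⟨_, Or.inl ⟨g, h, rfl⟩, rfl⟩, rfl⟩, rfl⟩
    · exact Or.inl ⟨_, Or.inl ⟨_, Or.inl ⟨_, Or.inr ⟨g, h, rfl⟩, rfl⟩, rfl⟩, rfl⟩
    · exact Or.inl ⟨_, Or.inl ⟨_, Or.inr ⟨g, h, rfl⟩, rfl⟩, rfl⟩
    · exact Or.inl ⟨_, Or.inr ⟨g, h, rfl⟩, rfl⟩
    · exact Or.inr ⟨g, h, rfl⟩

theorem mem_right_add5 (A B C D E X : Game) : X ∈ (A + B + C + D + E).right ↔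
    (∃ g ∈ A.right, X = g + B + C + D + E) ∨ (∃ g ∈ B.right, X = A + g + C + D + E) ∨
    (∃ g ∈ C.right, X = A + B + g + D + E) ∨ (∃ g ∈ D.right, X = A + B + C + g + E) ∨
    (∃ g ∈ E.right, X = A + B + C + D + g) := by
  simp only [mem_right_add]
  constructor
  · rintro (⟨_, (⟨_, (⟨_, (⟨g, h, rfl⟩ | ⟨g, h, rfl⟩), rfl⟩ | ⟨g, h, rfl⟩), rfl⟩ | ⟨g, h, rfl⟩),
      rfl⟩ | ⟨g, h, rfl⟩)
    · exact Or.inl ⟨g, h, rfl⟩
    · exact Or.inr (Or.inl ⟨g, h, rfl⟩)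
    · exact Or.inr (Or.inr (Or.inl ⟨g, h, rfl⟩))
    · exact Or.inr (Or.inr (Or.inr (Or.inl ⟨g, h, rfl⟩)))
    · exact Or.inr (Or.inr (Or.inr (Or.inr ⟨g, h, rfl⟩)))
  · rintro (⟨g, h, rfl⟩ | ⟨g, h, rfl⟩ | ⟨g, h, rfl⟩ | ⟨g, h, rfl⟩ | ⟨g, h, rfl⟩)
    · exact Or.inl ⟨_, Or.inl ⟨_, Or.inl ⟨_, Or.inl ⟨g, h, rfl⟩, rfl⟩, rfl⟩, rfl⟩
    · exact Or.inl ⟨_, Or.inl ⟨_, Or.inl ⟨_, Or.inr ⟨g, h, rfl⟩, rfl⟩, rfl⟩, rfl⟩
    · exact Or.inl ⟨_, Or.inl ⟨_, Or.inr ⟨g, h, rfl⟩, rfl⟩, rfl⟩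
    · exact Or.inl ⟨_, Or.inr ⟨g, h, rfl⟩, rfl⟩
    · exact Or.inr ⟨g, h, rfl⟩

end Game

open Game

/-- `*` -/
def g1 : Game := Game.star
/-- `*2 = {0,* | 0,*}` -/
def gS : Game := mk {0, g1} {0, g1}
/-- `{0,* | 0}` -/
def gU : Game := mk {0, g1} {0}
/-- `{0 | 0,*}` -/
def gD : Game := mk {0} {0, g1}
/-- `{0, gU, gD | 0, *2}` -/
def gG : Game := mk {0, gU, gD} {0, gS}

def pos (a b c e f : ℕ) : Game := a • g1 + b • gS + c • gU + e • gD + f • gG

theorem g1_left : g1.left = {0} := by simp [g1, Game.star, zero_def]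
theorem g1_right : g1.right = {0} := by simp [g1, Game.star, zero_def]
theorem gS_left : gS.left = {0, g1} := by simp [gS]
theorem gS_right : gS.right = {0, g1} := by simp [gS]
theorem gU_left : gU.left = {0, g1} := by simp [gU]
theorem gU_right : gU.right = {0} := by simp [gU]
theorem gD_left : gD.left = {0} := by simp [gD]
theorem gD_right : gD.right = {0, g1} := by simp [gD]
theorem gG_left : gG.left = {0, gU, gD} := by simp [gG]
theorem gG_right : gG.right = {0, gS} := by simp [gG]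

theorem pos_add (a b c e f a' b' c' e' f' : ℕ) :
    pos a b c e f + pos a' b' c' e' f' = pos (a + a') (b + b') (c + c') (e + e') (f + f') := by
  simp only [pos, add_nsmul]
  abel

theorem mem_left_pos (a b c e f : ℕ) (X : Game) : X ∈ (pos a b c e f).left ↔
    (1 ≤ a ∧ X = pos (a - 1) b c e f) ∨
    (1 ≤ b ∧ (X = pos a (b - 1) c e f ∨ X = pos (a + 1) (b - 1) c e f)) ∨
    (1 ≤ c ∧ (X = pos a b (c - 1) e f ∨ X = pos (a + 1) b (c - 1) e f)) ∨
    (1 ≤ e ∧ X = pos a b c (e - 1) f) ∨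
    (1 ≤ f ∧ (X = pos a b c e (f - 1) ∨ X = pos a b (c + 1) e (f - 1) ∨
      X = pos a b c (e + 1) (f - 1))) := by
  have e1 : pos (a + 1) (b - 1) c e f =
      a • g1 + (g1 + (b - 1) • gS) + c • gU + e • gD + f • gG := by
    simp only [pos, succ_nsmul]; abel
  have e2 : pos (a + 1) b (c - 1) e f =
      a • g1 + b • gS + (g1 + (c - 1) • gU) + e • gD + f • gG := by
    simp only [pos, succ_nsmul]; abel
  have e3 : pos a b (c + 1) e (f - 1) =
      a • g1 + b • gS + c • gU + e • gD + (gU + (f - 1) • gG) := by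
    simp only [pos, succ_nsmul]; abel
  have e4 : pos a b c (e + 1) (f - 1) =
      a • g1 + b • gS + c • gU + e • gD + (gD + (f - 1) • gG) := by
    simp only [pos, succ_nsmul]; abel
  rw [e1, e2, e3, e4]
  simp only [pos, mem_left_add5, exists_left_nsmul, g1_left, gS_left, gU_left, gD_left, gG_left,
    Finset.exists_mem_insert, Finset.mem_singleton, exists_eq_left, zero_add]

theorem mem_right_pos (a b c e f : ℕ) (X : Game) : X ∈ (pos a b c e f).right ↔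
    (1 ≤ a ∧ X = pos (a - 1) b c e f) ∨
    (1 ≤ b ∧ (X = pos a (b - 1) c e f ∨ X = pos (a + 1) (b - 1) c e f)) ∨
    (1 ≤ c ∧ X = pos a b (c - 1) e f) ∨
    (1 ≤ e ∧ (X = pos a b c (e - 1) f ∨ X = pos (a + 1) b c (e - 1) f)) ∨
    (1 ≤ f ∧ (X = pos a b c e (f - 1) ∨ X = pos a (b + 1) c e (f - 1))) := by
  have e1 : pos (a + 1) (b - 1) c e f =
      a • g1 + (g1 + (b - 1) • gS) + c • gU + e • gD + f • gG := by
    simp only [pos, succ_nsmul]; abel
  have e2 : pos (a + 1) b c (e - 1) f =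
      a • g1 + b • gS + c • gU + (g1 + (e - 1) • gD) + f • gG := by
    simp only [pos, succ_nsmul]; abel
  have e3 : pos a (b + 1) c e (f - 1) =
      a • g1 + b • gS + c • gU + e • gD + (gS + (f - 1) • gG) := by
    simp only [pos, succ_nsmul]; abel
  rw [e1, e2, e3]
  simp only [pos, mem_right_add5, exists_right_nsmul, g1_right, gS_right, gU_right, gD_right,
    gG_right, Finset.exists_mem_insert, Finset.mem_singleton, exists_eq_left, zero_add]

theorem left_pos_empty (a b c e f : ℕ) : (pos a b c e f).left = ∅ ↔ a + b + c + e + f = 0 := by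
  rw [Finset.eq_empty_iff_forall_notMem]
  constructor
  · intro h
    by_contra hne
    have : 1 ≤ a ∨ 1 ≤ b ∨ 1 ≤ c ∨ 1 ≤ e ∨ 1 ≤ f := by omega
    rcases this with h1 | h1 | h1 | h1 | h1
    · exact h _ ((mem_left_pos ..).2 (Or.inl ⟨h1, rfl⟩))
    · exact h _ ((mem_left_pos ..).2 (Or.inr (Or.inl ⟨h1, Or.inl rfl⟩)))
    · exact h _ ((mem_left_pos ..).2 (Or.inr (Or.inr (Or.inl ⟨h1, Or.inl rfl⟩))))
    · exact h _ ((mem_left_pos ..).2 (Or.inr (Or.inr (Or.inr (Or.inl ⟨h1, rfl⟩)))))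
    · exact h _ ((mem_left_pos ..).2 (Or.inr (Or.inr (Or.inr (Or.inr ⟨h1, Or.inl rfl⟩)))))
  · intro h X hX
    rw [mem_left_pos] at hX
    rcases hX with ⟨h1, _⟩ | ⟨h1, _⟩ | ⟨h1, _⟩ | ⟨h1, _⟩ | ⟨h1, _⟩ <;> omega

theorem right_pos_empty (a b c e f : ℕ) : (pos a b c e f).right = ∅ ↔ a + b + c + e + f = 0 := by
  rw [Finset.eq_empty_iff_forall_notMem]
  constructor
  · intro h
    by_contra hne
    have : 1 ≤ a ∨ 1 ≤ b ∨ 1 ≤ c ∨ 1 ≤ e ∨ 1 ≤ f := by omega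
    rcases this with h1 | h1 | h1 | h1 | h1
    · exact h _ ((mem_right_pos ..).2 (Or.inl ⟨h1, rfl⟩))
    · exact h _ ((mem_right_pos ..).2 (Or.inr (Or.inl ⟨h1, Or.inl rfl⟩)))
    · exact h _ ((mem_right_pos ..).2 (Or.inr (Or.inr (Or.inl ⟨h1, rfl⟩))))
    · exact h _ ((mem_right_pos ..).2 (Or.inr (Or.inr (Or.inr (Or.inl ⟨h1, Or.inl rfl⟩)))))
    · exact h _ ((mem_right_pos ..).2 (Or.inr (Or.inr (Or.inr (Or.inr ⟨h1, Or.inl rfl⟩)))))
  · intro h X hX
    rw [mem_right_pos] at hX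
    rcases hX with ⟨h1, _⟩ | ⟨h1, _⟩ | ⟨h1, _⟩ | ⟨h1, _⟩ | ⟨h1, _⟩ <;> omega

theorem exists_left_pos (m : Bool) (P : ℕ → ℕ → ℕ → ℕ → ℕ → Prop) (a b c e f : ℕ)
    (ih : ∀ a' b' c' e' f', a' + 2 * b' + 2 * c' + 2 * e' + 3 * f' < a + 2 * b + 2 * c + 2 * e + 3 * f →
      ((pos a' b' c' e' f').firstWins m false ↔ P a' b' c' e' f')) :
    (∃ H ∈ (pos a b c e f).left, ¬ H.firstWins m false) ↔ LStep P a b c e f := by
  unfold LStep
  constructor
  · rintro ⟨H, hH, hw⟩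
    rw [mem_left_pos] at hH
    rcases hH with ⟨h, rfl⟩ | ⟨h, rfl | rfl⟩ | ⟨h, rfl | rfl⟩ | ⟨h, rfl⟩ | ⟨h, rfl | rfl | rfl⟩ <;>
      rw [ih _ _ _ _ _ (by omega)] at hw <;> simp [h, hw]
  · rintro (⟨h, hw⟩ | ⟨h, hw | hw⟩ | ⟨h, hw | hw⟩ | ⟨h, hw⟩ | ⟨h, hw | hw | hw⟩) <;>
      rw [← ih _ _ _ _ _ (by omega)] at hw <;> refine ⟨_, ?_, hw⟩ <;> rw [mem_left_pos] <;>
      simp [h]

theorem exists_right_pos (m : Bool) (P : ℕ → ℕ → ℕ → ℕ → ℕ → Prop) (a b c e f : ℕ)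
    (ih : ∀ a' b' c' e' f', a' + 2 * b' + 2 * c' + 2 * e' + 3 * f' < a + 2 * b + 2 * c + 2 * e + 3 * f →
      ((pos a' b' c' e' f').firstWins m true ↔ P a' b' c' e' f')) :
    (∃ H ∈ (pos a b c e f).right, ¬ H.firstWins m true) ↔ RStep P a b c e f := by
  unfold RStep
  constructor
  · rintro ⟨H, hH, hw⟩
    rw [mem_right_pos] at hH
    rcases hH with ⟨h, rfl⟩ | ⟨h, rfl | rfl⟩ | ⟨h, rfl⟩ | ⟨h, rfl | rfl⟩ | ⟨h, rfl | rfl⟩ <;>
      rw [ih _ _ _ _ _ (by omega)] at hw <;> simp [h, hw]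
  · rintro (⟨h, hw⟩ | ⟨h, hw | hw⟩ | ⟨h, hw⟩ | ⟨h, hw | hw⟩ | ⟨h, hw | hw⟩) <;>
      rw [← ih _ _ _ _ _ (by omega)] at hw <;> refine ⟨_, ?_, hw⟩ <;> rw [mem_right_pos] <;>
      simp [h]

theorem wins_pos' (n : ℕ) : ∀ a b c e f : ℕ, a + 2 * b + 2 * c + 2 * e + 3 * f < n →
    ((pos a b c e f).firstWins false true ↔ NL a b c e f) ∧
    ((pos a b c e f).firstWins false false ↔ NR a b c e f) ∧
    ((pos a b c e f).firstWins true true ↔ ML a b c e f) ∧
    ((pos a b c e f).firstWins true false ↔ MR a b c e f) := by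
  induction n with
  | zero => intro a b c e f h; omega
  | succ n ih =>
    intro a b c e f h
    refine ⟨?_, ?_, ?_, ?_⟩
    · rw [firstWins_left, NL_iff,
        exists_left_pos false NR a b c e f fun _ _ _ _ _ h' => (ih _ _ _ _ _ (by omega)).2.1]
      simp
    · rw [firstWins_right, NR_iff,
        exists_right_pos false NL a b c e f fun _ _ _ _ _ h' => (ih _ _ _ _ _ (by omega)).1]
      simp
    · rw [firstWins_left, ML_iff, left_pos_empty,
        exists_left_pos true MR a b c e f fun _ _ _ _ _ h' => (ih _ _ _ _ _ (by omega)).2.2.2]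
      simp only [true_and]
    · rw [firstWins_right, MR_iff, right_pos_empty,
        exists_right_pos true ML a b c e f fun _ _ _ _ _ h' => (ih _ _ _ _ _ (by omega)).2.2.1]
      simp only [true_and]

theorem wins_pos (a b c e f : ℕ) :
    ((pos a b c e f).firstWins false true ↔ NL a b c e f) ∧
    ((pos a b c e f).firstWins false false ↔ NR a b c e f) ∧
    ((pos a b c e f).firstWins true true ↔ ML a b c e f) ∧
    ((pos a b c e f).firstWins true false ↔ MR a b c e f) :=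
  wins_pos' _ a b c e f (Nat.lt_succ_self _)

theorem outcome_eq_iff (m m' : Bool) (G H : Game) : outcome m G = outcome m' H ↔
    (G.firstWins m true ↔ H.firstWins m' true) ∧ (G.firstWins m false ↔ H.firstWins m' false) := by
  unfold outcome
  by_cases h1 : G.firstWins m true <;> by_cases h2 : G.firstWins m false <;>
    by_cases h3 : H.firstWins m' true <;> by_cases h4 : H.firstWins m' false <;>
    simp [h1, h2, h3, h4]

def exA : Set Game := {G | ∃ a b c e f, G = pos a b c e f}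

theorem pos_sum_star (a b c e f : ℕ) : (pos a b c e f).sum Game.star = pos (a + 1) b c e f := by
  change pos a b c e f + g1 = _
  simp only [pos, succ_nsmul]; abel

theorem exA_option {G H : Game} (hG : G ∈ exA) (h : H ∈ G.left ∨ H ∈ G.right) : H ∈ exA := by
  obtain ⟨a, b, c, e, f, rfl⟩ := hG
  rcases h with h | h
  · rw [mem_left_pos] at h
    rcases h with ⟨_, rfl⟩ | ⟨_, rfl | rfl⟩ | ⟨_, rfl | rfl⟩ | ⟨_, rfl⟩ | ⟨_, rfl | rfl | rfl⟩ <;>
      exact ⟨_, _, _, _, _, rfl⟩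
  · rw [mem_right_pos] at h
    rcases h with ⟨_, rfl⟩ | ⟨_, rfl | rfl⟩ | ⟨_, rfl⟩ | ⟨_, rfl | rfl⟩ | ⟨_, rfl | rfl⟩ <;>
      exact ⟨_, _, _, _, _, rfl⟩

theorem exA_sub {G H : Game} (hG : G ∈ exA) (h : IsSubposition H G) : H ∈ exA := by
  unfold IsSubposition at h
  induction h with
  | refl => exact hG
  | tail _ h ih => exact exA_option ih h

theorem exA_closed : IsClosedSet exA := by
  refine ⟨?_, fun G hG H h => exA_sub hG h⟩
  rintro _ ⟨a, b, c, e, f, rfl⟩ _ ⟨a', b', c', e', f', rfl⟩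
  exact ⟨_, _, _, _, _, pos_add a b c e f a' b' c' e' f'⟩

theorem exA_dicotic : ∀ G ∈ exA, IsDicotic G := by
  intro G hG H h
  obtain ⟨a, b, c, e, f, rfl⟩ := exA_sub hG h
  rw [Finset.nonempty_iff_ne_empty, Finset.nonempty_iff_ne_empty, Ne, Ne, left_pos_empty,
    right_pos_empty]

theorem exA_star : Game.star ∈ exA := ⟨1, 0, 0, 0, 0, by simp [pos, g1]⟩

theorem NL_add_two (a b c e f : ℕ) : NL (a + 1 + 1) b c e f ↔ NL a b c e f := by
  have : (a + 1 + 1) % 2 = a % 2 := by omega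
  simp only [NL, this]

theorem NR_add_two (a b c e f : ℕ) : NR (a + 1 + 1) b c e f ↔ NR a b c e f := by
  have : (a + 1 + 1) % 2 = a % 2 := by omega
  simp only [NR, this]

theorem exA_kernel : IsEvilKernel exA {G ∈ exA | normalOutcome G = misereOutcome G} := by
  refine ⟨fun G hG => hG.1, ?_⟩
  intro G hG
  unfold twin
  split_ifs with hK
  · exact ⟨hK.2, hK.2.symm⟩
  · obtain ⟨a, b, c, e, f, rfl⟩ := hG
    have hne : ¬ normalOutcome (pos a b c e f) = misereOutcome (pos a b c e f) :=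
      fun h => hK ⟨⟨a, b, c, e, f, rfl⟩, h⟩
    rw [pos_sum_star]
    unfold normalOutcome misereOutcome at *
    obtain ⟨h1, h2, h3, h4⟩ := wins_pos a b c e f
    obtain ⟨k1, k2, k3, k4⟩ := wins_pos (a + 1) b c e f
    rw [outcome_eq_iff, h1, h2, h3, h4] at hne
    rw [outcome_eq_iff, outcome_eq_iff, h1, h2, h3, h4, k1, k2, k3, k4]
    by_cases hb : b = 0 ∧ f ≤ 1
    · have hb' : ¬ (1 ≤ b ∨ 2 ≤ f) := by omega
      simp only [ML, MR, hb', hb.2, NL_add_two, NR_add_two, true_and, false_and, or_false]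
      simp only [hb.1, true_and, and_self]
    · exfalso
      apply hne
      have hb' : 1 ≤ b ∨ 2 ≤ f := by omega
      have hb2 : ∀ P : Prop, ¬ (b = 0 ∧ f ≤ 1 ∧ P) := fun P h => hb ⟨h.1, h.2.1⟩
      simp only [ML, MR, hb2, hb', true_and, false_or, and_self]

theorem not_mem_of_ne {K : Set Game} (hK : IsEvilKernel exA K) (a b c e f : ℕ)
    (h : ¬ ((NL a b c e f ↔ ML a b c e f) ∧ (NR a b c e f ↔ MR a b c e f))) :
    pos a b c e f ∉ K := by
  intro hm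
  have := (hK.2 _ ⟨a, b, c, e, f, rfl⟩).1
  unfold twin at this
  rw [if_pos hm] at this
  unfold normalOutcome misereOutcome at this
  obtain ⟨h1, h2, h3, h4⟩ := wins_pos a b c e f
  rw [outcome_eq_iff, h1, h2, h3, h4] at this
  exact h this

theorem mem_of_ne {K : Set Game} (hK : IsEvilKernel exA K) (a b c e f : ℕ)
    (h : ¬ ((NL a b c e f ↔ ML (a + 1) b c e f) ∧ (NR a b c e f ↔ MR (a + 1) b c e f))) :
    pos a b c e f ∈ K := by
  by_contra hm
  have := (hK.2 _ ⟨a, b, c, e, f, rfl⟩).1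
  unfold twin at this
  rw [if_neg hm, pos_sum_star] at this
  unfold normalOutcome misereOutcome at this
  obtain ⟨h1, h2, -, -⟩ := wins_pos a b c e f
  obtain ⟨-, -, h3, h4⟩ := wins_pos (a + 1) b c e f
  rw [outcome_eq_iff, h1, h2, h3, h4] at this
  exact h this

theorem no_normal {K : Set Game} (hK : IsEvilKernel exA K) :
    ∃ G ∈ exA, ∃ H ∈ exA, ¬ (G.sum H ∉ K ↔ (G ∉ K ∧ H ∉ K)) := by
  by_contra hcon
  have hn : ∀ G ∈ exA, ∀ H ∈ exA, (G.sum H ∉ K ↔ (G ∉ K ∧ H ∉ K)) := by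
    intro G hG H hH
    by_contra h
    exact hcon ⟨G, hG, H, hH, h⟩
  have hG : pos 0 0 0 0 1 ∉ K := not_mem_of_ne hK _ _ _ _ _ (by simp [NL, NR, ML, MR])
  have hD : pos 0 0 0 1 0 ∉ K := not_mem_of_ne hK _ _ _ _ _ (by simp [NL, NR, ML, MR])
  have hGGD : pos 0 0 0 1 2 ∈ K := mem_of_ne hK _ _ _ _ _ (by simp [NL, NR, ML, MR])
  have h1 : pos 0 0 0 0 2 ∉ K := by
    have := (hn _ ⟨0, 0, 0, 0, 1, rfl⟩ _ ⟨0, 0, 0, 0, 1, rfl⟩).2 ⟨hG, hG⟩
    rwa [← add_def, pos_add] at this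
  have := (hn _ ⟨0, 0, 0, 0, 2, rfl⟩ _ ⟨0, 0, 0, 1, 0, rfl⟩).2 ⟨h1, hD⟩
  rw [← add_def, pos_add] at this
  exact this hGGD

end Pool.Agent.Lib.MP_df1cff_co
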